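import Mathlib

namespace Pool.Agent.Results.MP_89e0e0_co.ClosureStepIffFrankl

open Finset

/-- `F` is union-closed over `[n]` (modelled as `Fin n`): all members are nonempty, `[n] ∈ F`,
and `F` is closed under unions. -/
def UnionClosedOver {n : ℕ} (F : Finset (Finset (Fin n))) : Prop :=
  (∀ A ∈ F, A.Nonempty) ∧ (univ : Finset (Fin n)) ∈ F ∧ ∀ A ∈ F, ∀ B ∈ F, A ∪ B ∈ F

/-- The family `2^{[n]}` of all nonempty subsets of `[n]`. -/
def allSets (n : ℕ) : Finset (Finset (Fin n)) := univ.filter fun A => A.Nonempty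

open Classical in
/-- The closure of `F`: all nonempty `A` such that `F ∪ {A}` is union-closed over `[n]`. -/
noncomputable def closure {n : ℕ} (F : Finset (Finset (Fin n))) : Finset (Finset (Fin n)) :=
  (allSets n).filter fun A => UnionClosedOver (insert A F)

/-- The Frankl property of the problem: some `i` lies in at least `⌊|F|/2⌋` members of `F`. -/
def FranklProperty {n : ℕ} (F : Finset (Finset (Fin n))) : Prop :=
  ∃ i : Fin n, F.card / 2 ≤ (F.filter fun A => i ∈ A).card

/-- Q1 of the problem for one fixed `n`: the closure of a union-closed family over `[n]` with the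
Frankl property has the Frankl property. -/
def Q1At (n : ℕ) : Prop :=
  ∀ F : Finset (Finset (Fin n)), UnionClosedOver F → FranklProperty F →
    FranklProperty (closure F)

/-- The union-closed sets conjecture for `[n]` in the normalisation of the problem. -/
def NormalisedFranklAt (n : ℕ) : Prop :=
  ∀ F : Finset (Finset (Fin n)), UnionClosedOver F → FranklProperty F

/-- Frankl's union-closed sets conjecture in its usual form, for families on the fixed ground set
`[m]`: every union-closed family (which may contain `∅`, and need not contain `[m]`) with a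
nonempty member has an element of the ground set that lies in at least half of its members. -/
def FranklAt (m : ℕ) : Prop :=
  ∀ G : Finset (Finset (Fin m)), (∃ A ∈ G, A.Nonempty) → (∀ A ∈ G, ∀ B ∈ G, A ∪ B ∈ G) →
    ∃ i : Fin m, G.card ≤ 2 * (G.filter fun A => i ∈ A).card

section basics

variable {n : ℕ}

lemma mem_allSets {A : Finset (Fin n)} : A ∈ allSets n ↔ A.Nonempty := by
  simp [allSets]

lemma mem_closure {F : Finset (Finset (Fin n))} (hF : UnionClosedOver F) {A : Finset (Fin n)} :
    A ∈ closure F ↔ A.Nonempty ∧ ∀ B ∈ F, A ∪ B ∈ F ∨ B ⊆ A := by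
  obtain ⟨h1, h2, h3⟩ := hF
  simp only [closure, mem_filter, mem_allSets]
  refine and_congr_right fun hA => ⟨fun h B hB => ?_, fun h => ⟨?_, ?_, ?_⟩⟩
  · have := h.2.2 A (mem_insert_self _ _) B (mem_insert_of_mem hB)
    rcases mem_insert.1 this with h' | h'
    · right
      exact (union_eq_left.1 h')
    · exact Or.inl h'
  · intro B hB
    rcases mem_insert.1 hB with hB' | hB'
    · rw [hB']; exact hA
    · exact h1 B hB'
  · exact mem_insert_of_mem h2
  · intro B hB C hC
    rcases mem_insert.1 hB with hB' | hB'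
    · rcases mem_insert.1 hC with hC' | hC'
      · rw [hB', hC', union_self]; exact mem_insert_self _ _
      · rw [hB']
        rcases h C hC' with h' | h'
        · exact mem_insert_of_mem h'
        · rw [union_eq_left.2 h']; exact mem_insert_self _ _
    · rcases mem_insert.1 hC with hC' | hC'
      · rw [hC']
        rcases h B hB' with h' | h'
        · rw [union_comm]; exact mem_insert_of_mem h'
        · rw [union_eq_right.2 h']; exact mem_insert_self _ _
      · exact mem_insert_of_mem (h3 B hB' C hC')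

lemma subset_closure {F : Finset (Finset (Fin n))} (hF : UnionClosedOver F) : F ⊆ closure F := by
  intro A hA
  rw [mem_closure hF]
  exact ⟨hF.1 A hA, fun B hB => Or.inl (hF.2.2 A hA B hB)⟩

lemma closure_uc {F : Finset (Finset (Fin n))} (hF : UnionClosedOver F) :
    UnionClosedOver (closure F) := by
  refine ⟨fun A hA => ((mem_closure hF).1 hA).1, subset_closure hF hF.2.1, ?_⟩
  intro A hA B hB
  rw [mem_closure hF] at hA hB ⊢
  refine ⟨hA.1.mono subset_union_left, fun C hC => ?_⟩
  rcases hA.2 C hC with h | h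
  · rcases hB.2 _ h with h' | h'
    · left
      have : A ∪ B ∪ C = B ∪ (A ∪ C) := by
        rw [union_comm A B, union_assoc]
      rw [this]; exact h'
    · right
      exact (subset_union_right.trans h').trans subset_union_right
  · right
    exact h.trans subset_union_left

end basics

/-- WLOG step: a counterexample to Frankl on `[m]` can be chosen to contain `[m]`. -/
lemma wlog_top {m : ℕ} (G : Finset (Finset (Fin m))) (hne : ∃ A ∈ G, A.Nonempty)
    (hU : ∀ A ∈ G, ∀ B ∈ G, A ∪ B ∈ G)
    (hbad : ∀ i : Fin m, 2 * (G.filter fun A => i ∈ A).card < G.card) :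
    ∃ G' : Finset (Finset (Fin m)), univ ∈ G' ∧ (∀ A ∈ G', ∀ B ∈ G', A ∪ B ∈ G') ∧
      ∀ i : Fin m, 2 * (G'.filter fun A => i ∈ A).card < G'.card := by
  classical
  obtain ⟨A0, hA0, u, hu⟩ := hne
  have hG : G.Nonempty := ⟨A0, hA0⟩
  set U : Finset (Fin m) := G.sup' hG id with hUdef
  have hUG : U ∈ G := by
    have := Finset.sup'_mem (↑G : Set (Finset (Fin m))) (fun x hx y hy => hU x hx y hy) G hG id
      (fun i hi => hi)
    exact Finset.mem_coe.1 this
  have hle : ∀ A ∈ G, A ⊆ U := fun A hA => by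
    have h' : id A ≤ G.sup' hG id := Finset.le_sup' (f := id) hA
    exact h'
  have huU : u ∈ U := hle A0 hA0 hu
  let φ : Finset (Fin m) → Finset (Fin m) := fun A => univ.filter fun v => v ∈ A ∨ (u ∈ A ∧ v ∉ U)
  have hφ : ∀ A v, v ∈ φ A ↔ v ∈ A ∨ (u ∈ A ∧ v ∉ U) := by
    intro A v; simp [φ]
  have hinj : Set.InjOn φ (↑G : Set (Finset (Fin m))) := by
    intro A hA B hB h
    ext v
    by_cases hv : v ∈ U
    · have := congrArg (fun S => v ∈ S) h
      simp only [hφ, eq_iff_iff] at this
      tauto
    · have h1 : v ∉ A := fun h' => hv (hle A hA h')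
      have h2 : v ∉ B := fun h' => hv (hle B hB h')
      tauto
  refine ⟨G.image φ, ?_, ?_, ?_⟩
  · rw [mem_image]
    refine ⟨U, hUG, ?_⟩
    ext v
    rw [hφ]
    simp only [mem_univ, iff_true]
    tauto
  · intro A hA B hB
    rw [mem_image] at hA hB ⊢
    obtain ⟨A', hA', rfl⟩ := hA
    obtain ⟨B', hB', rfl⟩ := hB
    refine ⟨A' ∪ B', hU A' hA' B' hB', ?_⟩
    ext v
    simp only [hφ, mem_union]
    tauto
  · intro i
    rw [card_image_of_injOn hinj]
    have hkey : ∃ w : Fin m, ∀ A ∈ G, (i ∈ φ A ↔ w ∈ A) := by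
      by_cases hi : i ∈ U
      · refine ⟨i, fun A _ => ?_⟩
        rw [hφ]; tauto
      · refine ⟨u, fun A hA => ?_⟩
        rw [hφ]
        have : i ∉ A := fun h' => hi (hle A hA h')
        tauto
    obtain ⟨w, hw⟩ := hkey
    have : ((G.image φ).filter fun A => i ∈ A).card ≤ (G.filter fun A => w ∈ A).card := by
      rw [filter_image]
      refine card_image_le.trans (card_le_card ?_)
      intro A hA
      rw [mem_filter] at hA ⊢
      exact ⟨hA.1, (hw A hA.1).1 hA.2⟩
    have := hbad w
    omega


lemma arith (m N : ℕ) (hN : 3 ≤ N) : 2 * ((2 * m + 3) * 2 ^ m) + 2 < N ^ (2 * m + 2) := by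
  have h1 : 3 ^ (2 * m + 2) ≤ N ^ (2 * m + 2) := Nat.pow_le_pow_left hN _
  have h2 : (3 : ℕ) ^ (2 * m + 2) = 9 * 9 ^ m := by
    rw [pow_add, pow_mul]; norm_num; ring
  have h3 : 2 ^ m * 4 ^ m ≤ 9 ^ m := by
    rw [← mul_pow]; exact Nat.pow_le_pow_left (by norm_num) _
  have h4 : m + 1 ≤ 4 ^ m := by
    have h5 : m < 4 ^ m := Nat.lt_pow_self (by norm_num)
    omega
  have h6 : 1 ≤ 2 ^ m := Nat.one_le_two_pow
  have h7 : 2 ^ m * (m + 1) ≤ 9 ^ m := (Nat.mul_le_mul_left _ h4).trans h3
  nlinarith

lemma prod_ite_one {k : ℕ} (j : Fin k) (a b : ℕ) :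
    ∏ i : Fin k, (if i = j then a else b) = a * b ^ (k - 1) := by
  classical
  rw [← Finset.mul_prod_erase univ _ (mem_univ j)]
  simp only [if_true]
  congr 1
  rw [Finset.prod_congr rfl (fun i hi => if_neg (ne_of_mem_erase hi)), prod_const,
    card_erase_of_mem (mem_univ _), card_univ, Fintype.card_fin]

/-- Q1 for `n = (2m+3)m` implies Frankl for `[m]`. -/
theorem frankl_of_q1 (m : ℕ) (hQ : Q1At ((2 * m + 3) * m)) : FranklAt m := by
  classical
  intro G0 hne0 hU0
  by_contra hcon0
  push Not at hcon0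
  obtain ⟨A0, hA0, i0, hi0⟩ := id hne0
  obtain ⟨G1, hG1top, hU1, hcon1⟩ := wlog_top G0 hne0 hU0 hcon0
  clear hcon0 hU0 hA0 hi0
  -- add the empty set
  obtain ⟨G, hGtop, hGbot, hU, hcon⟩ : ∃ G : Finset (Finset (Fin m)), univ ∈ G ∧ ∅ ∈ G ∧
      (∀ A ∈ G, ∀ B ∈ G, A ∪ B ∈ G) ∧
      ∀ i : Fin m, 2 * (G.filter fun A => i ∈ A).card < G.card := by
    refine ⟨insert ∅ G1, mem_insert_of_mem hG1top, mem_insert_self _ _, ?_, ?_⟩
    · intro A hA B hB
      rcases mem_insert.1 hA with hA' | hA'
      · rw [hA', empty_union]; exact hB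
      · rcases mem_insert.1 hB with hB' | hB'
        · rw [hB', union_empty]; exact hA
        · exact mem_insert_of_mem (hU1 A hA' B hB')
    · intro i
      have h1 : ((insert ∅ G1).filter fun A => i ∈ A) ⊆ G1.filter fun A => i ∈ A := by
        intro A hA
        rw [mem_filter] at hA ⊢
        refine ⟨?_, hA.2⟩
        rcases mem_insert.1 hA.1 with h | h
        · rw [h] at hA; exact absurd hA.2 (notMem_empty _)
        · exact h
      have h2 := card_le_card h1
      have h3 : G1.card ≤ (insert ∅ G1).card := card_le_card (subset_insert _ _)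
      have := hcon1 i
      omega
  clear hcon1 hU1 hG1top
  set k : ℕ := 2 * m + 3 with hk
  have hk0 : 0 < k := by omega
  have hk1 : 1 < k := by omega
  let z0 : Fin k := ⟨0, hk0⟩
  let z1 : Fin k := ⟨1, hk1⟩
  have hz01 : z0 ≠ z1 := by
    intro h
    have := congrArg Fin.val h
    simp [z0, z1] at this
  -- the ground set
  obtain ⟨e⟩ : Nonempty ((Fin k × Fin m) ≃ Fin (k * m)) := ⟨finProdFinEquiv⟩
  obtain ⟨Φ, hΦ0⟩ : ∃ Φ : (Fin k → Finset (Fin m)) → Finset (Fin (k * m)),
      ∀ g v, v ∈ Φ g ↔ (e.symm v).2 ∈ g (e.symm v).1 :=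
    ⟨fun g => univ.filter fun v => (e.symm v).2 ∈ g (e.symm v).1,
      fun g v => by simp only [mem_filter, mem_univ, true_and]⟩
  have hΦ : ∀ (g : Fin k → Finset (Fin m)) (p : Fin k × Fin m), e p ∈ Φ g ↔ p.2 ∈ g p.1 := by
    intro g p
    rw [hΦ0, e.symm_apply_apply]
  have hΦunion : ∀ g g', Φ g ∪ Φ g' = Φ (fun j => g j ∪ g' j) := by
    intro g g'
    ext v
    obtain ⟨w, rfl⟩ := e.surjective v
    simp only [mem_union, hΦ]
  have hΦsub : ∀ g g', Φ g ⊆ Φ g' → ∀ j, g j ⊆ g' j := by
    intro g g' h j u hu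
    have := h ((hΦ g (j, u)).2 hu)
    exact (hΦ g' (j, u)).1 this
  have hΦinj : Function.Injective Φ := by
    intro g g' h
    funext j
    exact subset_antisymm (hΦsub g g' h.subset j) (hΦsub g' g h.symm.subset j)
  have hΦsurj : ∀ A : Finset (Fin (k * m)), ∃ g, Φ g = A := by
    intro A
    refine ⟨fun j => univ.filter fun u => e (j, u) ∈ A, ?_⟩
    ext v
    obtain ⟨w, rfl⟩ := e.surjective v
    rw [hΦ]
    simp only [mem_filter, mem_univ, true_and, Prod.mk.eta]
  have hΦtop : Φ (fun _ => univ) = univ := by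
    ext v
    obtain ⟨w, rfl⟩ := e.surjective v
    rw [hΦ]
    simp only [mem_univ]
  set PG : Finset (Fin k → Finset (Fin m)) := Fintype.piFinset (fun _ => G) with hPG
  have hPGmem : ∀ g, g ∈ PG ↔ ∀ j, g j ∈ G := by
    intro g; rw [hPG, Fintype.mem_piFinset]
  set N := G.card with hN
  have hPGcard : PG.card = N ^ k := by
    rw [hPG, Fintype.card_piFinset_const]
  have hfcard : ∀ (j : Fin k) (u : Fin m),
      (PG.filter fun g => u ∈ g j).card = (G.filter fun A => u ∈ A).card * N ^ (k - 1) := by
    intro j u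
    have hfil : (PG.filter fun g => u ∈ g j) =
        Fintype.piFinset (fun i => if i = j then G.filter (fun A => u ∈ A) else G) := by
      ext g
      rw [mem_filter, hPGmem, Fintype.mem_piFinset]
      constructor
      · rintro ⟨h, h'⟩ i
        by_cases hij : i = j
        · subst hij; simp only [if_true]; exact mem_filter.2 ⟨h i, h'⟩
        · simp only [hij, if_false]; exact h i
      · intro h
        refine ⟨fun i => ?_, ?_⟩
        · have := h i
          by_cases hij : i = j
          · subst hij; simp only [if_true] at this; exact (mem_filter.1 this).1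
          · simp only [hij, if_false] at this; exact this
        · have := h j
          simp only [if_true] at this
          exact (mem_filter.1 this).2
    rw [hfil, Fintype.card_piFinset, ← prod_ite_one j]
    refine Finset.prod_congr rfl fun i _ => ?_
    by_cases hij : i = j
    · simp only [hij, if_true]
    · simp only [hij, if_false]; exact hN.symm
  -- the family
  set PF : Finset (Fin k → Finset (Fin m)) := PG.filter (fun g => i0 ∈ g z0 ∨ i0 ∈ g z1)
    with hPF
  have hPFmem : ∀ g, g ∈ PF ↔ (∀ j, g j ∈ G) ∧ (i0 ∈ g z0 ∨ i0 ∈ g z1) := by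
    intro g; rw [hPF, mem_filter, hPGmem]
  set F : Finset (Finset (Fin (k * m))) := PF.image Φ with hFdef
  have hFmem : ∀ g, Φ g ∈ F ↔ g ∈ PF := by
    intro g
    rw [hFdef, mem_image]
    constructor
    · rintro ⟨g', hg', h⟩
      rw [← hΦinj h]; exact hg'
    · intro h; exact ⟨g, h, rfl⟩
  have hUC : UnionClosedOver F := by
    refine ⟨?_, ?_, ?_⟩
    · intro A hA
      obtain ⟨g, rfl⟩ := hΦsurj A
      rw [hFmem, hPFmem] at hA
      rcases hA.2 with h | h
      · exact ⟨e (z0, i0), (hΦ _ _).2 h⟩
      · exact ⟨e (z1, i0), (hΦ _ _).2 h⟩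
    · rw [← hΦtop, hFmem, hPFmem]
      exact ⟨fun _ => hGtop, Or.inl (mem_univ _)⟩
    · intro A hA B hB
      obtain ⟨g, rfl⟩ := hΦsurj A
      obtain ⟨g', rfl⟩ := hΦsurj B
      rw [hΦunion, hFmem, hPFmem]
      rw [hFmem, hPFmem] at hA hB
      refine ⟨fun j => hU _ (hA.1 j) _ (hB.1 j), ?_⟩
      rcases hA.2 with h | h
      · exact Or.inl (mem_union_left _ h)
      · exact Or.inr (mem_union_left _ h)
  have hHalf : FranklProperty F := by
    refine ⟨e (z0, i0), ?_⟩
    have h1 : F.card ≤ 2 * ((G.filter fun A => i0 ∈ A).card * N ^ (k - 1)) := by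
      have h2 : PF ⊆ (PG.filter fun g => i0 ∈ g z0) ∪ (PG.filter fun g => i0 ∈ g z1) := by
        intro g hg
        rw [hPF, mem_filter] at hg
        rw [mem_union, mem_filter, mem_filter]
        rcases hg.2 with h | h
        · exact Or.inl ⟨hg.1, h⟩
        · exact Or.inr ⟨hg.1, h⟩
      calc F.card ≤ PF.card := card_image_le
        _ ≤ _ := card_le_card h2
        _ ≤ _ := card_union_le _ _
        _ = _ := by rw [hfcard, hfcard]; ring
    have h3 : (PG.filter fun g => i0 ∈ g z0).card ≤ (F.filter fun A => e (z0, i0) ∈ A).card := by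
      rw [← card_image_of_injective _ hΦinj]
      apply card_le_card
      intro A hA
      obtain ⟨g, hg, rfl⟩ := mem_image.1 hA
      rw [mem_filter, hPGmem] at hg
      rw [mem_filter, hFmem, hPFmem, hΦ]
      exact ⟨⟨hg.1, Or.inl hg.2⟩, hg.2⟩
    rw [hfcard] at h3
    omega
  obtain ⟨v, hv⟩ := hQ F hUC hHalf
  -- bounds for the closure
  set X : Finset (Finset (Fin (k * m))) :=
    (univ : Finset (Fin k × Finset (Fin m))).image
      (fun q => Φ (Function.update (fun _ => univ) q.1 q.2)) with hX
  have hXcard : X.card ≤ k * 2 ^ m := by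
    refine card_image_le.trans ?_
    rw [card_univ, Fintype.card_prod, Fintype.card_fin, Fintype.card_finset, Fintype.card_fin]
  have hupper : closure F ⊆ PG.image Φ ∪ X := by
    intro A hA
    obtain ⟨g, rfl⟩ := hΦsurj A
    rw [mem_closure hUC] at hA
    rw [mem_union]
    by_cases hg : ∀ j, g j ∈ G
    · left
      exact mem_image_of_mem _ ((hPGmem g).2 hg)
    · right
      push Not at hg
      obtain ⟨j, hj⟩ := hg
      rw [hX, mem_image]
      refine ⟨(j, g j), mem_univ _, ?_⟩
      congr 1
      let h : Fin k → Finset (Fin m) := Function.update (fun _ => univ) j ∅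
      have hhj : h j = ∅ := by simp [h]
      have hhi : ∀ i, i ≠ j → h i = univ := by
        intro i hi; simp [h, hi]
      have hhF : Φ h ∈ F := by
        rw [hFmem, hPFmem]
        constructor
        · intro i
          by_cases hij : i = j
          · rw [hij, hhj]; exact hGbot
          · rw [hhi i hij]; exact hGtop
        · by_cases hj0 : z0 = j
          · right
            rw [hhi z1 (fun hh => hz01 (hj0.trans hh.symm))]; exact mem_univ _
          · left
            rw [hhi z0 hj0]; exact mem_univ _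
      rcases hA.2 _ hhF with h1 | h1
      · exfalso
        rw [hΦunion, hFmem, hPFmem] at h1
        have := h1.1 j
        simp only [hhj, union_empty] at this
        exact hj this
      · have h2 := hΦsub _ _ h1
        funext i
        by_cases hij : i = j
        · rw [hij]; simp
        · have := h2 i
          rw [hhi i hij, univ_subset_iff] at this
          simp only [this]
          simp [Function.update, hij]
  have hlower : (PG.image Φ).erase ∅ ⊆ closure F := by
    intro A hA
    rw [mem_erase] at hA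
    obtain ⟨hA1, hA2⟩ := hA
    obtain ⟨g, hg, rfl⟩ := mem_image.1 hA2
    rw [hPGmem] at hg
    rw [mem_closure hUC]
    refine ⟨nonempty_iff_ne_empty.2 hA1, fun B hB => Or.inl ?_⟩
    obtain ⟨g', rfl⟩ := hΦsurj B
    rw [hFmem, hPFmem] at hB
    rw [hΦunion, hFmem, hPFmem]
    refine ⟨fun j => hU _ (hg j) _ (hB.1 j), ?_⟩
    rcases hB.2 with h | h
    · exact Or.inl (mem_union_right _ h)
    · exact Or.inr (mem_union_right _ h)
  have hcardlow : N ^ k ≤ (closure F).card + 1 := by
    have h1 := card_le_card hlower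
    have h2 := pred_card_le_card_erase (s := PG.image Φ) (a := ∅)
    rw [card_image_of_injective PG hΦinj, hPGcard] at h2
    omega
  obtain ⟨⟨j, u⟩, rfl⟩ := e.surjective v
  have hdeg : ((closure F).filter fun A => e (j, u) ∈ A).card ≤
      (G.filter fun A => u ∈ A).card * N ^ (k - 1) + k * 2 ^ m := by
    have hsub : ((closure F).filter fun A => e (j, u) ∈ A) ⊆
        (PG.filter fun g => u ∈ g j).image Φ ∪ X := by
      intro A hA
      rw [mem_filter] at hA
      rcases mem_union.1 (hupper hA.1) with h | h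
      · obtain ⟨g, hg, rfl⟩ := mem_image.1 h
        refine mem_union_left _ (mem_image_of_mem _ (mem_filter.2 ⟨hg, ?_⟩))
        exact (hΦ _ _).1 hA.2
      · exact mem_union_right _ h
    calc _ ≤ _ := card_le_card hsub
      _ ≤ _ := card_union_le _ _
      _ ≤ (PG.filter fun g => u ∈ g j).card + k * 2 ^ m := add_le_add card_image_le hXcard
      _ = _ := by rw [hfcard]
  have hN3 : 3 ≤ N := by
    have h := hcon i0
    have : 0 < (G.filter fun A => i0 ∈ A).card := by
      rw [card_pos]
      exact ⟨univ, mem_filter.2 ⟨hGtop, mem_univ _⟩⟩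
    omega
  have hc := hcon u
  set d := (G.filter fun A => u ∈ A).card with hd
  have e1 : 2 * (d * N ^ (k - 1)) ≤ (N - 1) * N ^ (k - 1) := by
    have : 2 * d ≤ N - 1 := by omega
    calc 2 * (d * N ^ (k - 1)) = (2 * d) * N ^ (k - 1) := by ring
      _ ≤ (N - 1) * N ^ (k - 1) := Nat.mul_le_mul_right _ this
  have e2 : (N - 1) * N ^ (k - 1) + N ^ (k - 1) = N ^ k := by
    obtain ⟨a, ha⟩ : ∃ a, N = a + 1 := ⟨N - 1, by omega⟩
    obtain ⟨b, hb⟩ : ∃ b, k = b + 1 := ⟨k - 1, by omega⟩
    rw [ha, hb]; simp only [Nat.add_sub_cancel]; ring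
  have e3 : 2 * (k * 2 ^ m) + 2 < N ^ (k - 1) := by
    have := arith m N hN3
    have hkk : k - 1 = 2 * m + 2 := by omega
    rw [hkk]
    exact this
  omega

/-- Frankl for `[n]` implies its normalised form for `[n]`. -/
theorem normalised_of_frankl (n : ℕ) (hFr : FranklAt n) : NormalisedFranklAt n := by
  intro F hF
  obtain ⟨i, hi⟩ := hFr F ⟨univ, hF.2.1, hF.1 _ hF.2.1⟩ hF.2.2
  exact ⟨i, by omega⟩

/-- The closure question Q1 is equivalent to Frankl's union-closed sets conjecture, both in the
normalisation of the problem and in the usual form; moreover Q1 for `n = (2m+3)m` alone implies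
Frankl's conjecture for the ground set `[m]`. -/
theorem result :
    (∀ m : ℕ, Q1At ((2 * m + 3) * m) → FranklAt m) ∧
    (∀ n : ℕ, FranklAt n → NormalisedFranklAt n) ∧
    (∀ n : ℕ, NormalisedFranklAt n → Q1At n) ∧
    ((∀ n : ℕ, 1 ≤ n → Q1At n) ↔ ∀ n : ℕ, 1 ≤ n → NormalisedFranklAt n) ∧
    ((∀ n : ℕ, 1 ≤ n → Q1At n) ↔ ∀ m : ℕ, FranklAt m) := by
  have hNQ : ∀ n : ℕ, NormalisedFranklAt n → Q1At n := fun n h F hF _ => h _ (closure_uc hF)
  have hall : (∀ n : ℕ, 1 ≤ n → Q1At n) → ∀ m : ℕ, FranklAt m := by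
    intro h m
    rcases Nat.eq_zero_or_pos m with rfl | hm
    · intro G hne _
      obtain ⟨A, _, i, _⟩ := hne
      exact i.elim0
    · exact frankl_of_q1 m (h _ (Nat.mul_pos (by omega) hm))
  refine ⟨frankl_of_q1, normalised_of_frankl, hNQ, ⟨?_, ?_⟩, ⟨hall, ?_⟩⟩
  · intro h n _
    exact normalised_of_frankl n (hall h n)
  · intro h n hn
    exact hNQ n (h n hn)
  · intro h n _
    exact hNQ n (normalised_of_frankl n (h n))

end Pool.Agent.Results.MP_89e0e0_co.ClosureStepIffFrankl
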