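import Mathlib
import Pool.Agent.R102.TwoDense

set_option autoImplicit false

/-!
# The closure of a union-closed family of density at most three has the Frankl property

If the third iterated closure of `F` is the family of all nonempty sets, then the closure of `F`
is a family of density at most two, and the average size of the members of such a family is at
least `n / 2`.
-/

namespace Pool.Agent.Results.MP_89e0e0_co.DensityThree

open Finset

/-- `F` is union-closed over `[n]` (modelled as `Fin n`): all members are nonempty, `[n] ∈ F`,
and `F` is closed under unions. -/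
def UnionClosedOver {n : ℕ} (F : Finset (Finset (Fin n))) : Prop :=
  (∀ A ∈ F, A.Nonempty) ∧ (univ : Finset (Fin n)) ∈ F ∧ ∀ A ∈ F, ∀ B ∈ F, A ∪ B ∈ F

/-- The family `2^{[n]}` of all nonempty subsets of `[n]`. -/
def allSets (n : ℕ) : Finset (Finset (Fin n)) := univ.filter fun A => A.Nonempty

open Classical in
/-- The closure of `F`: all nonempty `A` such that `F ∪ {A}` is union-closed over `[n]`. -/
noncomputable def closure {n : ℕ} (F : Finset (Finset (Fin n))) : Finset (Finset (Fin n)) :=
  (allSets n).filter fun A => UnionClosedOver (insert A F)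

/-- The Frankl property of the problem: some `i` lies in at least `⌊|F|/2⌋` members of `F`. -/
def FranklProperty {n : ℕ} (F : Finset (Finset (Fin n))) : Prop :=
  ∃ i : Fin n, F.card / 2 ≤ (F.filter fun A => i ∈ A).card

variable {n : ℕ}

lemma mem_allSets {A : Finset (Fin n)} : A ∈ allSets n ↔ A.Nonempty := by
  simp [allSets]

lemma mem_closure {F : Finset (Finset (Fin n))} (hF : UnionClosedOver F) {A : Finset (Fin n)} :
    A ∈ closure F ↔ A.Nonempty ∧ ∀ B ∈ F, A ∪ B ∈ F ∨ B ⊆ A := by
  obtain ⟨h1, h2, h3⟩ := hF
  simp only [closure, mem_filter, mem_allSets]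
  refine and_congr_right fun hA => ⟨fun h B hB => ?_, fun h => ⟨?_, ?_, ?_⟩⟩
  · have := h.2.2 A (mem_insert_self _ _) B (mem_insert_of_mem hB)
    rcases mem_insert.1 this with h' | h'
    · right
      exact (union_eq_left.1 h')
    · exact Or.inl h'
  · intro B hB
    rcases mem_insert.1 hB with hB' | hB'
    · rw [hB']; exact hA
    · exact h1 B hB'
  · exact mem_insert_of_mem h2
  · intro B hB C hC
    rcases mem_insert.1 hB with hB' | hB'
    · rcases mem_insert.1 hC with hC' | hC'
      · rw [hB', hC', union_self]; exact mem_insert_self _ _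
      · rw [hB']
        rcases h C hC' with h' | h'
        · exact mem_insert_of_mem h'
        · rw [union_eq_left.2 h']; exact mem_insert_self _ _
    · rcases mem_insert.1 hC with hC' | hC'
      · rw [hC']
        rcases h B hB' with h' | h'
        · rw [union_comm]; exact mem_insert_of_mem h'
        · rw [union_eq_right.2 h']; exact mem_insert_self _ _
      · exact mem_insert_of_mem (h3 B hB' C hC')

lemma subset_closure {F : Finset (Finset (Fin n))} (hF : UnionClosedOver F) : F ⊆ closure F := by
  intro A hA
  rw [mem_closure hF]
  exact ⟨hF.1 A hA, fun B hB => Or.inl (hF.2.2 A hA B hB)⟩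

lemma closure_uc {F : Finset (Finset (Fin n))} (hF : UnionClosedOver F) :
    UnionClosedOver (closure F) := by
  refine ⟨fun A hA => ((mem_closure hF).1 hA).1, subset_closure hF hF.2.1, ?_⟩
  intro A hA B hB
  rw [mem_closure hF] at hA hB ⊢
  refine ⟨hA.1.mono subset_union_left, fun C hC => ?_⟩
  rcases hA.2 C hC with h | h
  · rcases hB.2 _ h with h' | h'
    · left
      have : A ∪ B ∪ C = B ∪ (A ∪ C) := by
        rw [union_comm A B, union_assoc]
      rw [this]; exact h'
    · right
      exact (subset_union_right.trans h').trans subset_union_right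
  · right
    exact h.trans subset_union_left

/-- If the closure of `G` consists of all nonempty sets, then `G` is an up-set. -/
lemma upset_of_closure {G : Finset (Finset (Fin n))} (hG : UnionClosedOver G)
    (hc : closure G = allSets n) {Z B : Finset (Fin n)} (hZ : Z ∈ G) (hZB : Z ⊆ B) : B ∈ G := by
  by_cases h : B ⊆ Z
  · rwa [h.antisymm hZB]
  · have hA : B \ Z ∈ closure G := by
      rw [hc, mem_allSets]
      rwa [sdiff_nonempty]
    rcases ((mem_closure hG).1 hA).2 Z hZ with h2 | h2
    · rwa [sdiff_union_of_subset hZB] at h2
    · exfalso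
      obtain ⟨z, hz⟩ := hG.1 Z hZ
      exact (mem_sdiff.1 (h2 hz)).2 hz

/-- The key property of the families of density at most two. -/
lemma key {F : Finset (Finset (Fin n))} (hF : UnionClosedOver F)
    (h2 : closure (closure F) = allSets n) :
    ∀ A ∈ F, ∀ X ∈ F, ¬ X ⊆ A → ∀ C, A ∪ X ⊆ C → C ∈ F := by
  intro A hA X hX hXA C hC
  obtain ⟨x, hxX, hxA⟩ := not_subset.1 hXA
  have hAB : A ⊆ C.erase x := by
    intro a ha
    exact mem_erase.2 ⟨fun h => hxA (h ▸ ha), hC (mem_union_left _ ha)⟩
  have hB : C.erase x ∈ closure F :=
    upset_of_closure (closure_uc hF) h2 (subset_closure hF hA) hAB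
  have hxC : x ∈ C := hC (mem_union_right _ hxX)
  have h4 : C.erase x ∪ X = C := by
    ext y
    rw [mem_union, mem_erase]
    constructor
    · rintro (h | h)
      · exact h.2
      · exact hC (mem_union_right _ h)
    · intro h
      by_cases hy : y = x
      · exact Or.inr (hy ▸ hxX)
      · exact Or.inl ⟨hy, h⟩
  rcases ((mem_closure hF).1 hB).2 X hX with h3 | h3
  · rwa [h4] at h3
  · exact absurd (h3 hxX) (notMem_erase x C)

/-- Let `F` be union-closed over `[n]` with density at most three, that is, with all nonempty sets
in its third iterated closure. Then the members of the closure of `F` have average size at least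
`n / 2`, and the closure has the Frankl property; even some `i` lies in at least half of its
members. So Q1 holds for all families of density at most three. -/
theorem result (n : ℕ) (F : Finset (Finset (Fin n))) (hF : UnionClosedOver F)
    (h3 : closure (closure (closure F)) = allSets n) :
    n * (closure F).card ≤ 2 * ∑ A ∈ closure F, A.card ∧
    (∃ i : Fin n, (closure F).card ≤ 2 * ((closure F).filter fun A => i ∈ A).card) ∧
    FranklProperty (closure F) := by
  have hG := closure_uc hF
  have h := Pool.Agent.R102.TwoDense.average (closure F) hG.2.1 (key hG h3)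
  have hn : Nonempty (Fin n) := by
    obtain ⟨i, _⟩ := hF.1 _ hF.2.1
    exact ⟨i⟩
  obtain ⟨i, hi⟩ := Pool.Agent.R102.TwoDense.exists_half (closure F) h
  rw [Fintype.card_fin] at h
  exact ⟨h, ⟨i, hi⟩, i, by omega⟩

end Pool.Agent.Results.MP_89e0e0_co.DensityThree
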